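import Mathlib

set_option autoImplicit false

namespace Pool.Agent.Results.MP_6bd959_co.Bounded

/-- the plane -/
abbrev Plane := EuclideanSpace ℝ (Fin 2)

/-- the translate `P + x` -/
def translate (P : Set Plane) (x : Plane) : Set Plane := {y | ∃ p ∈ P, y = p + x}

/-- the family `(P + x i)` is an `m`-fold covering of `S` -/
def MFold (m : ℕ) (P S : Set Plane) {ι : Type} (x : ι → Plane) : Prop :=
  ∀ y ∈ S, (m : ℕ∞) ≤ {i | y ∈ translate P (x i)}.encard

/-- the family splits into two subfamilies, each covering `S` -/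
def Decomposes (P S : Set Plane) {ι : Type} (x : ι → Plane) : Prop :=
  ∃ J : Set ι, (∀ y ∈ S, ∃ i ∈ J, y ∈ translate P (x i)) ∧ ∀ y ∈ S, ∃ i ∉ J, y ∈ translate P (x i)

/-- cover-decomposable -/
def CoverDec (P : Set Plane) : Prop :=
  ∃ m, 2 ≤ m ∧ ∀ (ι : Type) (x : ι → Plane), MFold m P Set.univ x → Decomposes P Set.univ x

/-- totally-cover-decomposable -/
def TotallyCoverDec (P : Set Plane) : Prop :=
  ∃ m, 2 ≤ m ∧ ∀ (S : Set Plane) (ι : Type) (x : ι → Plane), MFold m P S x → Decomposes P S x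

lemma sdr {κ α : Type} [Countable κ] (F : κ → Set α) (h : ∀ k, (F k).Infinite) :
    ∃ w : κ → α, Function.Injective w ∧ ∀ k, w k ∈ F k := by
  classical
  obtain ⟨n, hn⟩ := Countable.exists_injective_nat κ
  choose t ht1 ht2 using fun k => (h k).exists_subset_card_eq (n k + 1)
  obtain ⟨w, hw, hw'⟩ := (Finset.all_card_le_biUnion_card_iff_exists_injective t).1 (by
    intro s
    rcases s.eq_empty_or_nonempty with rfl | hs
    · simp
    obtain ⟨k, hk, hm⟩ := s.exists_max_image n hs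
    have h1 : s.card ≤ (Finset.range (n k + 1)).card :=
      Finset.card_le_card_of_injOn n (fun j hj => by simpa [Nat.lt_succ_iff] using hm j hj) hn.injOn
    rw [Finset.card_range, ← ht2] at h1
    exact h1.trans (Finset.card_le_card (Finset.subset_biUnion_of_mem t hk)))
  exact ⟨w, hw, fun k => ht1 k (hw' k)⟩

lemma colour {κ ι : Type} [Countable κ] (E : κ → Set ι) (h2 : ∀ k, (E k).Nontrivial)
    (hd : ∀ k k' i, (E k).Finite → (E k').Finite → i ∈ E k → i ∈ E k' → k = k') :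
    ∃ J : Set ι, ∀ k, (∃ i ∈ J, i ∈ E k) ∧ ∃ i ∉ J, i ∈ E k := by
  classical
  choose a ha b hb hab using h2
  let π : ι → κ ⊕ ι := fun i =>
    if h : ∃ k, (E k).Finite ∧ i ∈ E k then Sum.inl h.choose else Sum.inr i
  have hπ : ∀ k i, (E k).Finite → i ∈ E k → π i = Sum.inl k := by
    intro k i hk hi
    have h : ∃ k, (E k).Finite ∧ i ∈ E k := ⟨k, hk, hi⟩
    simp only [π, dif_pos h]
    rw [hd _ _ i h.choose_spec.1 hk h.choose_spec.2 hi]
  have hfib : ∀ c, (π ⁻¹' {c}).Finite := by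
    intro c
    rcases (π ⁻¹' {c}).eq_empty_or_nonempty with h | ⟨i, hi⟩
    · rw [h]; exact Set.finite_empty
    have hi' : π i = c := hi
    by_cases h : ∃ k, (E k).Finite ∧ i ∈ E k
    · obtain ⟨k, hk, hik⟩ := h
      refine hk.subset fun j hj => ?_
      have hj' : π j = Sum.inl k := (show π j = c from hj).trans (hi'.symm.trans (hπ k i hk hik))
      simp only [π] at hj'
      split_ifs at hj' with h'
      have := h'.choose_spec.2
      rwa [Sum.inl_injective hj'] at this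
    · refine (Set.finite_singleton i).subset fun j hj => ?_
      have hj' : π j = π i := (show π j = c from hj).trans hi'.symm
      simp only [π, dif_neg h] at hj'
      split_ifs at hj' with h'
      exact Sum.inr_injective hj'
  obtain ⟨w, hw, hw'⟩ := sdr (fun p : {k // (E k).Infinite} × Bool => π '' E p.1.1) (by
    intro p hp
    exact p.1.2 ((hp.preimage' fun c _ => hfib c).subset (Set.subset_preimage_image _ _)))
  choose v hv hv' using hw'
  let par : ι → Prop := fun i => ∃ k, (E k).Finite ∧ i = b k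
  let g : κ ⊕ ι → Prop := fun c => ∃ p, w p = c ∧ (p.2 = true ↔ par (v p))
  refine ⟨{i | par i ↔ g (π i)}, fun k => ?_⟩
  by_cases hk : (E k).Finite
  · have h1 : ¬ par (a k) := by
      rintro ⟨k', hk', e⟩
      have := hd k k' (a k) hk hk' (ha k) (e ▸ hb k')
      subst this
      exact hab k e
    have h3 : par (b k) := ⟨k, hk, rfl⟩
    have e1 := hπ k _ hk (ha k)
    have e2 := hπ k _ hk (hb k)
    by_cases h4 : g (Sum.inl k)
    · exact ⟨⟨b k, by simp [h3, e2, h4], hb k⟩, a k, by simp [h1, e1, h4], ha k⟩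
    · exact ⟨⟨a k, by simp [h1, e1, h4], ha k⟩, b k, by simp [h3, e2, h4], hb k⟩
  · have key : ∀ s : Bool, g (π (v (⟨k, hk⟩, s))) ↔ (s = true ↔ par (v (⟨k, hk⟩, s))) := by
      intro s
      rw [hv']
      exact ⟨fun ⟨p, h1, h3⟩ => by rwa [hw h1] at h3, fun h => ⟨_, rfl, h⟩⟩
    refine ⟨⟨v (⟨k, hk⟩, true), ?_, hv (⟨k, hk⟩, true)⟩, v (⟨k, hk⟩, false), ?_,
      hv (⟨k, hk⟩, false)⟩
    · simp [key]
    · simp [key]

lemma exists_t : ∃ t : ℝ, -1 < t ∧ t < 0 ∧ LinearIndependent ℤ fun j : ℕ => t ^ j := by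
  obtain ⟨t, ht, h1, h2⟩ := ((Algebraic.countable ℤ ℝ).dense_compl ℝ).exists_mem_open
    (isOpen_Ioo (a := (-1 : ℝ)) (b := 0)) (Set.nonempty_Ioo.2 (by norm_num))
  refine ⟨t, h1, h2, ?_⟩
  have h3 := transcendental_iff_injective.1 ht
  have h4 := (Polynomial.basisMonomials ℤ).linearIndependent.map'
    (Polynomial.aeval t).toLinearMap (LinearMap.ker_eq_bot.2 h3)
  have e : (Polynomial.aeval t).toLinearMap ∘ Polynomial.basisMonomials ℤ = fun j : ℕ => t ^ j := by
    funext j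
    simp
  rw [e] at h4
  exact h4

/-- embedding of the integer vectors -/
noncomputable def val (t : ℝ) : (ℕ →₀ ℤ) →ₗ[ℤ] ℝ := Finsupp.linearCombination ℤ fun j : ℕ => t ^ j

/-- the point `(r, 0)` -/
noncomputable def emb : ℝ →ₗ[ℝ] Plane := LinearMap.toSpanSingleton ℝ Plane (EuclideanSpace.single 0 1)

lemma emb_inj : Function.Injective emb := by
  intro r s h
  simpa [emb] using congrArg (fun z : Plane => z 0) h

/-- the set -/
def PP (t : ℝ) : Set Plane := {y | ∃ p : ℕ →₀ ℤ, 0 ≤ p ∧ 0 < val t p ∧ val t p < 1 ∧ y = emb (val t p)}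

lemma mem_tr {t : ℝ} {x y : Plane} : y ∈ translate (PP t) x ↔
    ∃ p : ℕ →₀ ℤ, 0 ≤ p ∧ 0 < val t p ∧ val t p < 1 ∧ y = emb (val t p) + x :=
  ⟨fun ⟨_, ⟨p, h1, h2, h3, h4⟩, h5⟩ => ⟨p, h1, h2, h3, h4 ▸ h5⟩,
    fun ⟨p, h1, h2, h3, h4⟩ => ⟨_, ⟨p, h1, h2, h3, rfl⟩, h4⟩⟩

lemma small {t : ℝ} (h1 : -1 < t) (h2 : t < 0) (ε : ℝ) (hε : 0 < ε) :
    ∃ K, ∀ j, K ≤ j → 0 < t ^ (2 * j) ∧ t ^ (2 * j) < ε := by
  have h3 : t ^ 2 < 1 := by nlinarith
  have h4 : 0 < t ^ 2 := by nlinarith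
  obtain ⟨K, hK⟩ := exists_pow_lt_of_lt_one hε h3
  refine ⟨K, fun j hj => ?_⟩
  rw [pow_mul]
  exact ⟨by positivity, (pow_le_pow_of_le_one h4.le h3.le hj).trans_lt hK⟩

lemma hit {t : ℝ} (h1 : -1 < t) (h2 : t < 0) (c a b : ℝ) (hab : a < b) :
    ∃ s : ℕ →₀ ℤ, 0 ≤ s ∧ a < c - val t s ∧ c - val t s < b := by
  obtain ⟨n, hn⟩ := exists_nat_gt ((b - c) / -t)
  rw [div_lt_iff₀ (by linarith)] at hn
  obtain ⟨K, hK⟩ := small h1 h2 (b - a) (by linarith)
  obtain ⟨k1, k2⟩ := hK K le_rfl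
  obtain ⟨m, hm⟩ : ∃ m, m = ⌊(c - n * t - b) / t ^ (2 * K)⌋₊ := ⟨_, rfl⟩
  have a1 := Nat.floor_le (show 0 ≤ (c - n * t - b) / t ^ (2 * K) by
    apply div_nonneg <;> linarith)
  have a2 := Nat.lt_floor_add_one ((c - n * t - b) / t ^ (2 * K))
  rw [← hm] at a1 a2
  rw [le_div_iff₀ k1] at a1
  rw [div_lt_iff₀ k1] at a2
  refine ⟨Finsupp.single 1 (n : ℤ) + Finsupp.single (2 * K) ((m : ℤ) + 1), ?_, ?_, ?_⟩
  · exact add_nonneg (Finsupp.single_nonneg.2 (by positivity))
      (Finsupp.single_nonneg.2 (by positivity))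
  · simp only [val, map_add, Finsupp.linearCombination_single, zsmul_eq_mul]
    push_cast
    nlinarith
  · simp only [val, map_add, Finsupp.linearCombination_single, zsmul_eq_mul]
    push_cast
    nlinarith

lemma core {t : ℝ} (h1 : -1 < t) (h2 : t < 0) (hi : Function.Injective (val t)) {ι : Type}
    (x : ι → Plane) (hc : ∀ z, ∃ i, z ∈ translate (PP t) (x i)) (x0 : Plane) (p q : ℕ →₀ ℤ)
    (hp : 0 ≤ p) (hq : 0 ≤ q) (hpq : val t p < val t q) (hpq' : val t q < val t p + 1)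
    (f1 : {i | emb (val t p) + x0 ∈ translate (PP t) (x i)}.Finite)
    (f2 : {i | emb (val t q) + x0 ∈ translate (PP t) (x i)}.Finite) : False := by
  have key : ∀ p : ℕ →₀ ℤ, 0 ≤ p → {i | emb (val t p) + x0 ∈ translate (PP t) (x i)}.Finite →
      ∃ M : ℤ, ∀ i, ∀ u : ℕ →₀ ℤ, 0 ≤ u → 0 < val t u → val t u < 1 →
        emb (val t p) + x0 = emb (val t u) + x i → u 0 < M := by
    intro p _ f
    have : ∀ i, ∃ M : ℤ, ∀ u : ℕ →₀ ℤ, emb (val t p) + x0 = emb (val t u) + x i → u 0 < M := by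
      intro i
      by_cases h : ∃ u : ℕ →₀ ℤ, emb (val t p) + x0 = emb (val t u) + x i
      · obtain ⟨u, hu⟩ := h
        refine ⟨u 0 + 1, fun u' hu' => ?_⟩
        rw [hi (emb_inj (add_right_cancel (hu'.symm.trans hu)))]
        omega
      · exact ⟨0, fun u hu => absurd ⟨u, hu⟩ h⟩
    choose M hM using this
    obtain ⟨B, hB⟩ := (f.image M).bddAbove
    exact ⟨B, fun i u a1 a2 a3 a4 => (hM i u a4).trans_le
      (hB ⟨i, mem_tr.2 ⟨u, a1, a2, a3, a4⟩, rfl⟩)⟩
  obtain ⟨M1, hM1⟩ := key p hp f1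
  obtain ⟨M2, hM2⟩ := key q hq f2
  obtain ⟨s, s0, s1, s2⟩ := hit h1 h2 (-val t (Finsupp.single 0 (|M1| + |M2|))) _ _ hpq
  obtain ⟨r, hr⟩ : ∃ r, r = Finsupp.single 0 (|M1| + |M2|) + s := ⟨_, rfl⟩
  have r0 : 0 ≤ r := hr ▸ add_nonneg (Finsupp.single_nonneg.2 (by positivity)) s0
  have r1 : |M1| + |M2| ≤ r 0 := by
    have := s0 0
    simpa [hr] using this
  have r2 : -val t (Finsupp.single 0 (|M1| + |M2|)) - val t s = -val t r := by
    rw [hr, map_add]; ring
  rw [r2] at s1 s2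
  obtain ⟨i, hi⟩ := hc (emb (-val t r) + x0)
  obtain ⟨u, u0, u1, u2, u3⟩ := mem_tr.1 hi
  have e : ∀ p : ℕ →₀ ℤ, emb (val t p) + x0 = emb (val t (u + p + r)) + x i := by
    intro p
    rw [map_neg, neg_add_eq_iff_eq_add] at u3
    simp only [map_add, u3]
    abel
  have a1 := le_abs_self M1
  have a2 := le_abs_self M2
  have a3 := abs_nonneg M1
  have a4 := abs_nonneg M2
  have a5 := u0 0
  have a6 := hp 0
  have a7 := hq 0
  simp only [Finsupp.coe_zero, Pi.zero_apply] at a5 a6 a7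
  by_cases h : 0 < val t (u + p + r)
  · have := hM1 i _ (add_nonneg (add_nonneg u0 hp) r0) h (by simp only [map_add]; linarith) (e p)
    simp only [Finsupp.add_apply] at this
    omega
  · have := hM2 i _ (add_nonneg (add_nonneg u0 hq) r0) (by simp only [map_add]; linarith)
      (by simp only [map_add] at h ⊢; linarith) (e q)
    simp only [Finsupp.add_apply] at this
    omega

lemma coverDec {t : ℝ} (h1 : -1 < t) (h2 : t < 0) (hi : Function.Injective (val t)) :
    CoverDec (PP t) := by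
  refine ⟨2, le_rfl, fun ι x hx => ?_⟩
  have hnt : ∀ y, {i | y ∈ translate (PP t) (x i)}.Nontrivial := fun y =>
    Set.one_lt_encard_iff_nontrivial.1 (lt_of_lt_of_le (by norm_num) (hx y trivial))
  let Γ : AddSubgroup Plane := (emb.toAddMonoidHom.comp (val t).toAddMonoidHom).range
  have hΓ : ∀ y x, y ∈ translate (PP t) x → (QuotientAddGroup.mk x : Plane ⧸ Γ) = y := by
    intro y x h
    obtain ⟨p, _, _, _, rfl⟩ := mem_tr.1 h
    exact QuotientAddGroup.eq.2 ⟨p, by simp⟩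
  have hcol : ∀ c : Plane ⧸ Γ, ∃ J : Set ι, ∀ y : {y : Plane // (y : Plane ⧸ Γ) = c},
      (∃ i ∈ J, i ∈ {i | y.1 ∈ translate (PP t) (x i)}) ∧
      ∃ i ∉ J, i ∈ {i | y.1 ∈ translate (PP t) (x i)} := by
    intro c
    obtain ⟨y0, rfl⟩ := QuotientAddGroup.mk_surjective c
    have : Countable {y : Plane // (y : Plane ⧸ Γ) = y0} := by
      refine Set.countable_coe_iff.2 ((Set.countable_range fun p => y0 - emb (val t p)).mono ?_)
      intro y hy
      obtain ⟨p, hp⟩ := QuotientAddGroup.eq.1 hy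
      refine ⟨p, ?_⟩
      have hp' : emb (val t p) = -y + y0 := hp
      simp [hp']
    refine colour _ (fun y => hnt y.1) fun y y' i f1 f2 a1 a2 => Subtype.ext ?_
    obtain ⟨p, p0, p1, p2, p3⟩ := mem_tr.1 a1
    obtain ⟨q, q0, q1, q2, q3⟩ := mem_tr.1 a2
    rw [p3] at f1
    rw [q3] at f2
    rcases lt_trichotomy (val t p) (val t q) with h | h | h
    · exact (core h1 h2 hi x (fun z => (hnt z).nonempty) _ p q p0 q0 h (by linarith) f1 f2).elim
    · rw [p3, q3, h]
    · exact (core h1 h2 hi x (fun z => (hnt z).nonempty) _ q p q0 p0 h (by linarith) f2 f1).elim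
  choose J hJ using hcol
  refine ⟨{i | i ∈ J (x i)}, fun y _ => ?_, fun y _ => ?_⟩
  · obtain ⟨i, a1, a2⟩ := (hJ y ⟨y, rfl⟩).1
    exact ⟨i, by rwa [Set.mem_ofPred_eq, hΓ _ _ a2], a2⟩
  · obtain ⟨i, a1, a2⟩ := (hJ y ⟨y, rfl⟩).2
    exact ⟨i, by rwa [Set.mem_ofPred_eq, hΓ _ _ a2], a2⟩

lemma notTotal {t : ℝ} (h1 : -1 < t) (h2 : t < 0) (hi : Function.Injective (val t)) :
    ¬ TotallyCoverDec (PP t) := by
  classical
  rintro ⟨m, hm, h⟩
  have hm' : (0 : ℝ) < m := by exact_mod_cast (show 0 < m by omega)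
  obtain ⟨K, hK⟩ := small h1 h2 (1 / m) (by positivity)
  let u : Fin (2 * m) → ℕ →₀ ℤ := fun i => Finsupp.single (2 * (K + i)) 1
  have hu : ∀ i, 0 < val t (u i) ∧ val t (u i) < 1 / m := fun i => by
    simpa [u, val] using hK (K + i) (by omega)
  let y : Finset (Fin (2 * m)) → Plane := fun A => emb (val t (∑ i ∈ A, u i))
  have hin : ∀ A : Finset (Fin (2 * m)), A.card = m → ∀ i ∈ A,
      y A ∈ translate (PP t) (emb (val t (u i))) := by
    intro A hA i hiA
    have hc := Finset.card_erase_of_mem hiA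
    have hne : (A.erase i).Nonempty := Finset.card_pos.1 (by omega)
    refine mem_tr.2 ⟨∑ j ∈ A.erase i, u j, Finset.sum_nonneg fun j _ =>
      Finsupp.single_nonneg.2 zero_le_one, ?_, ?_, ?_⟩
    · rw [map_sum]
      exact Finset.sum_pos (fun j _ => (hu j).1) hne
    · rw [map_sum]
      refine (Finset.sum_lt_sum_of_nonempty hne fun j _ => (hu j).2).trans_le ?_
      rw [Finset.sum_const, nsmul_eq_mul, mul_one_div, div_le_one hm']
      exact_mod_cast (show (A.erase i).card ≤ m by omega)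
    · rw [← map_add, ← map_add, Finset.sum_erase_add _ _ hiA]
  have hout : ∀ (A : Finset (Fin (2 * m))) i, y A ∈ translate (PP t) (emb (val t (u i))) → i ∈ A := by
    intro A i hy
    obtain ⟨p, p0, _, _, p3⟩ := mem_tr.1 hy
    rw [← map_add, ← map_add] at p3
    have e := congrArg (fun f : ℕ →₀ ℤ => f (2 * (K + i))) (hi (emb_inj p3))
    by_contra hiA
    have z : (∑ j ∈ A, u j) (2 * (K + i)) = 0 := by
      rw [Finsupp.finsetSum_apply]
      refine Finset.sum_eq_zero fun j hj => Finsupp.single_eq_of_ne fun e => hiA ?_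
      rwa [show i = j from Fin.ext (by omega)]
    have := p0 (2 * (K + i))
    simp only [z, u, Finsupp.add_apply, Finsupp.single_eq_same, Finsupp.coe_zero,
      Pi.zero_apply] at e this
    omega
  obtain ⟨J, j1, j2⟩ := h (y '' {A | A.card = m}) (Fin (2 * m)) (fun i => emb (val t (u i))) (by
    rintro _ ⟨A, hA, rfl⟩
    have e : (A : Set (Fin (2 * m))).encard = m := by
      rw [Set.encard_coe_eq_coe_finsetCard, show A.card = m from hA]
    exact e.symm.le.trans (Set.encard_le_encard fun i hi => hin A hA i hi))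
  have hc := Finset.card_filter_add_card_filter_not (s := (Finset.univ : Finset (Fin (2 * m))))
    (fun i => i ∈ J)
  simp only [Finset.card_univ, Fintype.card_fin] at hc
  by_cases hJ : m ≤ (Finset.univ.filter fun i => i ∈ J).card
  · obtain ⟨A, a1, a2⟩ := Finset.exists_subset_card_eq hJ
    obtain ⟨i, b1, b2⟩ := j2 _ ⟨A, a2, rfl⟩
    exact b1 (Finset.mem_filter.1 (a1 (hout A i b2))).2
  · obtain ⟨A, a1, a2⟩ := Finset.exists_subset_card_eq
      (show m ≤ (Finset.univ.filter fun i => ¬ i ∈ J).card by omega)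
    obtain ⟨i, b1, b2⟩ := j1 _ ⟨A, a2, rfl⟩
    exact (Finset.mem_filter.1 (a1 (hout A i b2))).2 b1

theorem result : ∃ P : Set Plane, Bornology.IsBounded P ∧ CoverDec P ∧ ¬ TotallyCoverDec P := by
  obtain ⟨t, h1, h2, h3⟩ := exists_t
  refine ⟨PP t, isBounded_iff_forall_norm_le.2 ⟨1, ?_⟩, coverDec h1 h2 h3, notTotal h1 h2 h3⟩
  rintro _ ⟨p, _, a1, a2, rfl⟩
  simp only [emb, LinearMap.toSpanSingleton_apply, norm_smul, PiLp.norm_single, norm_one,
    mul_one, Real.norm_eq_abs, abs_of_pos a1]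
  exact a2.le

end Pool.Agent.Results.MP_6bd959_co.Bounded
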